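import Mathlib
import Pool.Agent.H100R2.MH.Main
import Pool.Agent.H100R2.MH.P.T02

set_option autoImplicit false

/-!
# The enveloping semigroup of the kei of the reflections (helper90)
-/

namespace Pool.Agent.Helper90.Prox

open Topology Filter Set
open Pool.Agent.H100R2.MH

universe u

variable {D : Type u} [TopologicalSpace D] [CompactSpace D] [T2Space D]

/-- closure of the group of the products of reflections in the space of all maps -/
def EE (K : Kei3 D) : Set (D → D) := closure (Set.range (fun l : List D => (K.act l : D → D)))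


theorem EE_comp (K : Kei3 D) {p q : D → D} (hp : p ∈ EE K) (hq : q ∈ EE K) : p ∘ q ∈ EE K := by
  have h1 : ∀ l : List D, ∀ q ∈ EE K, (K.act l : D → D) ∘ q ∈ EE K := by
    intro l q hq
    have hc : Continuous (fun q : D → D => (K.act l : D → D) ∘ q) :=
      continuous_pi fun x => (K.act l).continuous.comp (continuous_apply x)
    refine map_mem_closure hc hq ?_
    rintro _ ⟨l', rfl⟩
    exact ⟨l ++ l', funext fun z => (t04 D K).2.1 l l' z⟩
  have hc : Continuous (fun p : D → D => p ∘ q) :=
    continuous_pi fun x => continuous_apply (q x)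
  have h2 := map_mem_closure (s := Set.range (fun l : List D => (K.act l : D → D))) (t := EE K) hc hp (by
    rintro _ ⟨l, rfl⟩
    exact h1 l q hq)
  rwa [EE, closure_closure] at h2

/-- an idempotent of the enveloping semigroup and a state invariant under the reflections in its range -/
theorem exists_idem (K : Kei3 D) :
    ∃ y ∈ St D, (∀ i, y (K.ind i) = 1 / 3) ∧
      ∃ p ∈ EE K, (∀ x, p (p x) = p x) ∧ ∀ x, push (K.rc (p x)) y = y := by
  obtain ⟨Q, hQ, y, hy⟩ := t03 t01 t04 D K
  have hyQ : y ∈ Q := hy.1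
  have hySt : y ∈ St D := hQ.1.sub hyQ
  set S : Set D := {x | push (K.rc x) y = y} with hSdef
  have hScl : IsClosed S := by
    rw [isClosed_iff_ultrafilter]
    intro x 𝒱 hx hS
    have h6 := (t06 t01 t05 D K D (𝒱 : Filter D) (fun _ => y) y (fun _ => hySt) hySt
      tendsto_const_nhds).2 (fun w => w) x hx
    have h7 : Tendsto (fun w => push (K.rc w) y) (𝒱 : Filter D) (𝓝 y) := by
      refine Tendsto.congr' ?_ tendsto_const_nhds
      filter_upwards [hS] with w hw
      exact (hw : push (K.rc w) y = y).symm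
    exact tendsto_nhds_unique h6 h7
  -- finite sets are absorbed
  have hfin : ∀ F : Finset D, (EE K ∩ ⋂ x ∈ F, {p : D → D | p x ∈ S}).Nonempty := by
    intro F
    obtain ⟨n, f, hf⟩ : ∃ (n : ℕ) (f : Fin n → D), ∀ x ∈ F, ∃ i, f i = x :=
      ⟨F.card, fun i => (F.equivFin.symm i : D), fun x hx => ⟨F.equivFin ⟨x, hx⟩, by simp⟩⟩
    obtain ⟨𝒰, hU⟩ := p14 t02 D K Q hQ y hy n (fun i => dirac (f i)) (fun i => (t01 D).2.2.2 (f i))
    obtain ⟨p, -, hp⟩ := isCompact_univ.ultrafilter_le_nhds
      (𝒰.map (fun l : List D => (K.act l : D → D))) (by simp)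
    have hpt : Tendsto (fun l : List D => (K.act l : D → D)) 𝒰 (𝓝 p) := hp
    refine ⟨p, ?_, ?_⟩
    · exact mem_closure_of_tendsto hpt (Eventually.of_forall fun l => ⟨l, rfl⟩)
    · simp only [mem_iInter, mem_ofPred_eq]
      intro x hx
      obtain ⟨i, rfl⟩ := hf x hx
      obtain ⟨ps, hps, hlim, hfix⟩ := hU i
      apply hfix
      intro u hu0 hux
      have h1 : Tendsto (fun l : List D => u (K.act l (f i))) 𝒰 (𝓝 (u (p (f i)))) :=
        (u.continuous.tendsto _).comp ((tendsto_pi_nhds.1 hpt) (f i))
      have h2 : Tendsto (fun l : List D => push (K.act l) (dirac (f i)) u) 𝒰 (𝓝 (ps u)) :=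
        (tendsto_pi_nhds.1 hlim) u
      have h3 : ps u = u (p (f i)) := tendsto_nhds_unique h2 h1
      rw [h3]; exact hux
  have hEc : IsCompact (EE K) := isClosed_closure.isCompact
  have hI : (EE K ∩ ⋂ x, {p : D → D | p x ∈ S}).Nonempty := by
    refine hEc.inter_iInter_nonempty _ (fun x => hScl.preimage (continuous_apply x)) ?_
    intro F
    exact hfin F
  let I : Set (D → D) := EE K ∩ ⋂ x, {p : D → D | p x ∈ S}
  have hIc : IsCompact I := hEc.inter_right
    (isClosed_iInter fun x => hScl.preimage (continuous_apply x))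
  let _ : Semigroup (D → D) := { mul := fun p q => p ∘ q, mul_assoc := fun _ _ _ => rfl }
  obtain ⟨p, hpI, hpp⟩ := exists_idempotent_in_compact_subsemigroup
    (M := D → D) (fun q => continuous_pi fun x => continuous_apply (q x)) I hI hIc (by
      intro p hp q hq
      refine ⟨EE_comp K hp.1 hq.1, ?_⟩
      simp only [mem_iInter, mem_ofPred_eq]
      intro x
      exact (mem_iInter.1 hp.2) (q x))
  exact ⟨y, hySt, t10 t01 t04 D K Q hQ y hyQ, p, hpI.1, fun x => congrFun hpp x,
    fun x => (mem_iInter.1 hpI.2) x⟩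

end Pool.Agent.Helper90.Prox
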