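import Mathlib

set_option autoImplicit false

/-!
# Inner mappings and (not necessarily closed) normal subloops
-/

namespace Pool.Agent.Helper90.Prox

/-- the products of left and right translations of `(G, mul)` -/
inductive Mlt {G : Type*} (mul : G → G → G) : (G → G) → Prop
  | id : Mlt mul (fun x => x)
  | left (a : G) {φ : G → G} : Mlt mul φ → Mlt mul (fun x => mul a (φ x))
  | right (a : G) {φ : G → G} : Mlt mul φ → Mlt mul (fun x => mul (φ x) a)

/-- the inner mappings: the products of left and right translations which fix the unit -/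
def Inner {G : Type*} (mul : G → G → G) (e : G) (φ : G → G) : Prop := Mlt mul φ ∧ φ e = e

/-- `N` is a normal subloop: a subloop invariant under all inner mappings (`N` need not be closed) -/
structure NormalSub {G : Type*} (mul ldiv : G → G → G) (e : G) (N : Set G) : Prop where
  one_mem : e ∈ N
  mul_mem : ∀ x ∈ N, ∀ y ∈ N, mul x y ∈ N
  inv_mem : ∀ x ∈ N, ldiv x e ∈ N
  inner_mem : ∀ φ, Inner mul e φ → ∀ x ∈ N, φ x ∈ N

/-- the normal subloop generated by the terms of the sequence `X` -/
def NC {G : Type*} (mul ldiv : G → G → G) (e : G) (X : ℕ → G) : Set G :=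
  {z | ∀ N : Set G, NormalSub mul ldiv e N → (∀ n, X n ∈ N) → z ∈ N}

end Pool.Agent.Helper90.Prox
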