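import Mathlib
import Pool.Agent.Helper974.Moufang.Basic
import Pool.Agent.Helper90.Prox.Defs

set_option autoImplicit false

/-!
# Words and the compact exhaustion of the normal subloop generated by an element
-/

namespace Pool.Agent.Helper90.Prox

open Topology Filter Set
open Pool.Agent.Helper974.Moufang (IsMoufang)

universe u

variable {G : Type u}

/-- words of length `n` -/
def wd (mul : G → G → G) : ℕ → (ℕ → G × G) → G → G
  | 0, _, z => z
  | n + 1, a, z => mul (mul (a n).1 (wd mul n a z)) (a n).2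

/-- the sets exhausting the normal subloop generated by the sequence `x` -/
def W (mul ldiv : G → G → G) (e : G) (x : ℕ → G) : ℕ → Set G
  | 0 => {e}
  | n + 1 => W mul ldiv e x n ∪ ({x n} ∪
      ((fun q : G × G => mul q.1 q.2) '' (W mul ldiv e x n ×ˢ W mul ldiv e x n) ∪
      ((fun u => ldiv u e) '' W mul ldiv e x n ∪
      (fun q : (ℕ → G × G) × G => wd mul n q.1 q.2) '' ({a | wd mul n a e = e} ×ˢ W mul ldiv e x n))))

theorem wd_continuous [TopologicalSpace G] {mul : G → G → G}
    (hm : Continuous (fun p : G × G => mul p.1 p.2)) (n : ℕ) :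
    Continuous (fun q : (ℕ → G × G) × G => wd mul n q.1 q.2) := by
  induction n with
  | zero => exact continuous_snd
  | succ n ih =>
    have h1 : Continuous (fun q : (ℕ → G × G) × G => q.1 n) := (continuous_apply n).comp continuous_fst
    exact hm.comp ((hm.comp ((continuous_fst.comp h1).prodMk ih)).prodMk (continuous_snd.comp h1))

theorem W_compact [TopologicalSpace G] [CompactSpace G] [T2Space G] {mul ldiv : G → G → G} {e : G}
    (hm : Continuous (fun p : G × G => mul p.1 p.2)) (hl : Continuous (fun p : G × G => ldiv p.1 p.2))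
    (x : ℕ → G) (n : ℕ) : IsCompact (W mul ldiv e x n) := by
  induction n with
  | zero => exact isCompact_singleton
  | succ n ih =>
    refine ih.union (isCompact_singleton.union (((ih.prod ih).image hm).union
      ((ih.image (hl.comp (continuous_id.prodMk continuous_const))).union
      ((IsCompact.prod ?_ ih).image (wd_continuous hm n)))))
    refine IsClosed.isCompact ?_
    exact isClosed_eq ((wd_continuous hm n).comp (continuous_id.prodMk continuous_const))
      continuous_const

theorem W_mono {mul ldiv : G → G → G} {e : G} {x : ℕ → G} : Monotone (W mul ldiv e x) :=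
  monotone_nat_of_le_succ fun _ => subset_union_left

theorem wd_congr {mul : G → G → G} (n : ℕ) (a b : ℕ → G × G) (hab : ∀ j < n, a j = b j) (z : G) :
    wd mul n a z = wd mul n b z := by
  induction n with
  | zero => rfl
  | succ n ih =>
    simp only [wd]
    rw [ih (fun j hj => hab j (by omega)), hab n (by omega)]

theorem wd_pad {mul ldiv rdiv : G → G → G} {e : G} (h : IsMoufang mul ldiv rdiv e) (n d : ℕ)
    (a : ℕ → G × G) : ∃ b, ∀ z, wd mul (n + d) b z = wd mul n a z := by
  induction d with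
  | zero => exact ⟨a, fun z => rfl⟩
  | succ d ih =>
    obtain ⟨b, hb⟩ := ih
    refine ⟨fun j => if j < n + d then b j else (e, e), fun z => ?_⟩
    rw [← hb z, ← Nat.add_assoc]
    simp only [wd]
    rw [wd_congr (n + d) _ b (fun j hj => by simp [hj])]
    simp [h.one_mul, h.mul_one]

theorem Mlt_wd {mul ldiv rdiv : G → G → G} {e : G} (h : IsMoufang mul ldiv rdiv e) {φ : G → G}
    (hφ : Mlt mul φ) : ∃ n a, ∀ z, φ z = wd mul n a z := by
  induction hφ with
  | id => exact ⟨0, fun _ => (e, e), fun z => rfl⟩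
  | left c hφ ih =>
    obtain ⟨n, a, ha⟩ := ih
    refine ⟨n + 1, fun j => if j < n then a j else (c, e), fun z => ?_⟩
    simp only [wd]
    rw [wd_congr n _ a (fun j hj => by simp [hj]), ha]
    simp [h.mul_one]
  | right c hφ ih =>
    obtain ⟨n, a, ha⟩ := ih
    refine ⟨n + 1, fun j => if j < n then a j else (e, c), fun z => ?_⟩
    simp only [wd]
    rw [wd_congr n _ a (fun j hj => by simp [hj]), ha]
    simp [h.one_mul]

theorem wd_Mlt (mul : G → G → G) (n : ℕ) (a : ℕ → G × G) : Mlt mul (fun z => wd mul n a z) := by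
  induction n with
  | zero => exact Mlt.id
  | succ n ih => exact Mlt.right _ (Mlt.left _ ih)

theorem W_normal {mul ldiv rdiv : G → G → G} {e : G} (h : IsMoufang mul ldiv rdiv e) (x : ℕ → G) :
    NormalSub mul ldiv e (⋃ n, W mul ldiv e x n) where
  one_mem := mem_iUnion.2 ⟨0, rfl⟩
  mul_mem := by
    intro u hu v hv
    obtain ⟨n, hn⟩ := mem_iUnion.1 hu
    obtain ⟨m, hm⟩ := mem_iUnion.1 hv
    refine mem_iUnion.2 ⟨max n m + 1, Or.inr (Or.inr (Or.inl ⟨(u, v), ⟨?_, ?_⟩, rfl⟩))⟩
    · exact W_mono (le_max_left _ _) hn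
    · exact W_mono (le_max_right _ _) hm
  inv_mem := by
    intro u hu
    obtain ⟨n, hn⟩ := mem_iUnion.1 hu
    exact mem_iUnion.2 ⟨n + 1, Or.inr (Or.inr (Or.inr (Or.inl ⟨u, hn, rfl⟩)))⟩
  inner_mem := by
    intro φ hφ u hu
    obtain ⟨n, hn⟩ := mem_iUnion.1 hu
    obtain ⟨m, a, ha⟩ := Mlt_wd h hφ.1
    obtain ⟨b, hb⟩ := wd_pad h m n a
    have hb2 : ∀ z, φ z = wd mul (m + n) b z := fun z => by rw [ha, hb]
    refine mem_iUnion.2 ⟨m + n + 1, Or.inr (Or.inr (Or.inr (Or.inr ⟨(b, u), ⟨?_, ?_⟩, ?_⟩)))⟩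
    · change wd mul (m + n) b e = e
      rw [← hb2]; exact hφ.2
    · exact W_mono (Nat.le_add_left _ _) hn
    · exact (hb2 u).symm

theorem W_sub {mul ldiv : G → G → G} {e : G} {x : ℕ → G} {N : Set G} (hN : NormalSub mul ldiv e N)
    (hx : ∀ n, x n ∈ N) (n : ℕ) : W mul ldiv e x n ⊆ N := by
  induction n with
  | zero => exact singleton_subset_iff.2 hN.one_mem
  | succ n ih =>
    refine union_subset ih (union_subset (singleton_subset_iff.2 (hx n))
      (union_subset ?_ (union_subset ?_ ?_)))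
    · rintro _ ⟨⟨u, v⟩, ⟨hu, hv⟩, rfl⟩
      exact hN.mul_mem _ (ih hu) _ (ih hv)
    · rintro _ ⟨u, hu, rfl⟩
      exact hN.inv_mem _ (ih hu)
    · rintro _ ⟨⟨a, u⟩, ⟨ha, hu⟩, rfl⟩
      exact hN.inner_mem _ ⟨wd_Mlt mul n a, ha⟩ _ (ih hu)

theorem iUnion_W {mul ldiv rdiv : G → G → G} {e : G} (h : IsMoufang mul ldiv rdiv e) (x : ℕ → G) :
    ⋃ n, W mul ldiv e x n = NC mul ldiv e x := by
  apply Set.Subset.antisymm
  · intro z hz N hN hx
    obtain ⟨n, hn⟩ := mem_iUnion.1 hz
    exact W_sub hN hx n hn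
  · intro z hz
    exact hz _ (W_normal h x) (fun n => mem_iUnion.2 ⟨n + 1, Or.inr (Or.inl rfl)⟩)

end Pool.Agent.Helper90.Prox
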