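import Mathlib
import Pool.Agent.Helper90.Prox.Words

set_option autoImplicit false
set_option linter.unusedSectionVars false

/-!
# Limits of selections along an ultrafilter of homotopisms
-/

namespace Pool.Agent.Helper90.Prox

open Topology Filter Set
open Pool.Agent.Helper974.Moufang (IsMoufang)

universe u v

variable {G : Type u} {I : Type v} [TopologicalSpace G]

/-- the images of the selections `s` and `t` have the same limit -/
def EqL (𝒰 : Ultrafilter I) (F : I → G → G) (s t : I → G) : Prop :=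
  ∃ a, Tendsto (fun i => F i (s i)) 𝒰 (𝓝 a) ∧ Tendsto (fun i => F i (t i)) 𝒰 (𝓝 a)

section
variable [CompactSpace G]

theorem lim_ex (𝒰 : Ultrafilter I) (f : I → G) : ∃ a, Tendsto f 𝒰 (𝓝 a) := by
  obtain ⟨p, -, hp⟩ := isCompact_univ.ultrafilter_le_nhds (𝒰.map f) (by simp)
  exact ⟨p, hp⟩

theorem EqL.refl (𝒰 : Ultrafilter I) (F : I → G → G) (s : I → G) : EqL 𝒰 F s s := by
  obtain ⟨a, ha⟩ := lim_ex 𝒰 (fun i => F i (s i))
  exact ⟨a, ha, ha⟩

end

theorem EqL.symm {𝒰 : Ultrafilter I} {F : I → G → G} {s t : I → G} (h : EqL 𝒰 F s t) :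
    EqL 𝒰 F t s := by
  obtain ⟨a, h1, h2⟩ := h
  exact ⟨a, h2, h1⟩

theorem EqL.trans [T2Space G] {𝒰 : Ultrafilter I} {F : I → G → G} {s t r : I → G} (h : EqL 𝒰 F s t)
    (h' : EqL 𝒰 F t r) : EqL 𝒰 F s r := by
  obtain ⟨a, h1, h2⟩ := h
  obtain ⟨b, h3, h4⟩ := h'
  have hab : a = b := tendsto_nhds_unique h2 h3
  exact ⟨a, h1, hab ▸ h4⟩

theorem EqL.congr {𝒰 : Ultrafilter I} {F : I → G → G} {s t s' : I → G} (h : EqL 𝒰 F s t)
    (hs : ∀ᶠ i in (𝒰 : Filter I), s i = s' i) : EqL 𝒰 F s' t := by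
  obtain ⟨a, h1, h2⟩ := h
  exact ⟨a, h1.congr' (hs.mono fun i hi => by simp only [hi]), h2⟩

variable [CompactSpace G] [T2Space G] {mul ldiv rdiv : G → G → G} {e : G}
  (h : IsMoufang mul ldiv rdiv e)
  (hm : Continuous (fun p : G × G => mul p.1 p.2)) (hl : Continuous (fun p : G × G => ldiv p.1 p.2))
  {𝒰 : Ultrafilter I} {A B C : I → G → G}
  (hC : ∀ᶠ i in (𝒰 : Filter I), ∀ a b, C i (mul a b) = ldiv (mul (A i a) (B i b)) e)

include hm hl hC in
theorem mul_lim {s t : I → G} {a b : G} (ha : Tendsto (fun i => A i (s i)) 𝒰 (𝓝 a))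
    (hb : Tendsto (fun i => B i (t i)) 𝒰 (𝓝 b)) :
    Tendsto (fun i => C i (mul (s i) (t i))) 𝒰 (𝓝 (ldiv (mul a b) e)) := by
  have h1 : Tendsto (fun i => ldiv (mul (A i (s i)) (B i (t i))) e) 𝒰 (𝓝 (ldiv (mul a b) e)) := by
    have h2 : Continuous (fun p : G × G => ldiv (mul p.1 p.2) e) :=
      hl.comp (hm.prodMk continuous_const)
    exact (h2.tendsto (a, b)).comp (ha.prodMk_nhds hb)
  exact h1.congr' (hC.mono fun i hi => (hi _ _).symm)

include h in
theorem inv_inj {x y : G} (hxy : ldiv x e = ldiv y e) : x = y := by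
  have := congrArg (fun w => ldiv w e) hxy
  simpa only [h.inv_inv] using this

include hm hl hC in
theorem EqL.prod {s s' t t' : I → G} (h1 : EqL 𝒰 A s s') (h2 : EqL 𝒰 B t t') :
    EqL 𝒰 C (fun i => mul (s i) (t i)) (fun i => mul (s' i) (t' i)) := by
  obtain ⟨a, ha, ha'⟩ := h1
  obtain ⟨b, hb, hb'⟩ := h2
  exact ⟨_, mul_lim hm hl hC ha hb, mul_lim hm hl hC ha' hb'⟩

include h hm hl hC in
theorem EqL.left_cancel {s s' t t' : I → G} (h1 : EqL 𝒰 A s s')
    (h2 : EqL 𝒰 C (fun i => mul (s i) (t i)) (fun i => mul (s' i) (t' i))) : EqL 𝒰 B t t' := by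
  obtain ⟨a, ha, ha'⟩ := h1
  obtain ⟨b, hb⟩ := lim_ex 𝒰 (fun i => B i (t i))
  obtain ⟨b', hb'⟩ := lim_ex 𝒰 (fun i => B i (t' i))
  obtain ⟨c, hc, hc'⟩ := h2
  have e1 := tendsto_nhds_unique hc (mul_lim hm hl hC ha hb)
  have e2 := tendsto_nhds_unique hc' (mul_lim hm hl hC ha' hb')
  have e3 : b = b' := h.lcan (inv_inj h (e1.symm.trans e2))
  exact ⟨b, hb, e3 ▸ hb'⟩

include h hm hl hC in
theorem EqL.right_cancel {s s' t t' : I → G} (h1 : EqL 𝒰 B t t')
    (h2 : EqL 𝒰 C (fun i => mul (s i) (t i)) (fun i => mul (s' i) (t' i))) : EqL 𝒰 A s s' := by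
  obtain ⟨b, hb, hb'⟩ := h1
  obtain ⟨a, ha⟩ := lim_ex 𝒰 (fun i => A i (s i))
  obtain ⟨a', ha'⟩ := lim_ex 𝒰 (fun i => A i (s' i))
  obtain ⟨c, hc, hc'⟩ := h2
  have e1 := tendsto_nhds_unique hc (mul_lim hm hl hC ha hb)
  have e2 := tendsto_nhds_unique hc' (mul_lim hm hl hC ha' hb')
  have e3 : a = a' := h.rcan (inv_inj h (e1.symm.trans e2))
  exact ⟨a, ha, e3 ▸ ha'⟩


include h hm hl hC

theorem AC {s s' : I → G} (h1 : EqL 𝒰 A s s') : EqL 𝒰 C s s' := by
  have := EqL.prod hm hl hC h1 (EqL.refl 𝒰 B (fun _ => e))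
  simpa only [h.mul_one] using this

theorem BC {s s' : I → G} (h1 : EqL 𝒰 B s s') : EqL 𝒰 C s s' := by
  have := EqL.prod hm hl hC (EqL.refl 𝒰 A (fun _ => e)) h1
  simpa only [h.one_mul] using this

theorem CA {s s' : I → G} (h1 : EqL 𝒰 C s s') : EqL 𝒰 A s s' := by
  refine EqL.right_cancel h hm hl hC (EqL.refl 𝒰 B (fun _ => e)) ?_
  simpa only [h.mul_one] using h1

theorem CB {s s' : I → G} (h1 : EqL 𝒰 C s s') : EqL 𝒰 B s s' := by
  refine EqL.left_cancel h hm hl hC (EqL.refl 𝒰 A (fun _ => e)) ?_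
  simpa only [h.one_mul] using h1

theorem R_mul {s s' t t' : I → G} (h1 : EqL 𝒰 A s s') (h2 : EqL 𝒰 A t t') :
    EqL 𝒰 A (fun i => mul (s i) (t i)) (fun i => mul (s' i) (t' i)) :=
  CA h hm hl hC (EqL.prod hm hl hC h1 (CB h hm hl hC (AC h hm hl hC h2)))

theorem R_inv {s s' : I → G} (h1 : EqL 𝒰 A s s') :
    EqL 𝒰 A (fun i => ldiv (s i) e) (fun i => ldiv (s' i) e) := by
  refine CA h hm hl hC (BC h hm hl hC (EqL.left_cancel h hm hl hC h1 ?_))
  simp only [h.mul_ldiv]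
  exact EqL.refl 𝒰 C _

theorem R_left {s s' : I → G} (c : I → G)
    (h1 : EqL 𝒰 A (fun i => mul (c i) (s i)) (fun i => mul (c i) (s' i))) : EqL 𝒰 A s s' := by
  have h2 := R_mul h hm hl hC (EqL.refl 𝒰 A (fun i => ldiv (c i) e)) h1
  simpa only [h.lip] using h2

theorem R_wd (n : ℕ) (a : I → ℕ → G × G) {s s' : I → G} (h1 : EqL 𝒰 A s s') :
    EqL 𝒰 A (fun i => wd mul n (a i) (s i)) (fun i => wd mul n (a i) (s' i)) := by
  induction n with
  | zero => exact h1
  | succ n ih =>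
    exact R_mul h hm hl hC (R_mul h hm hl hC (EqL.refl 𝒰 A (fun i => (a i n).1)) ih)
      (EqL.refl 𝒰 A (fun i => (a i n).2))

/-- selections in the sets `W n` are equivalent to the unit -/
theorem W_sel {x : ℕ → G} (hx : ∀ n, EqL 𝒰 A (fun _ => x n) (fun _ => e)) (n : ℕ) :
    ∀ s : I → G, (∀ᶠ i in (𝒰 : Filter I), s i ∈ W mul ldiv e x n) → EqL 𝒰 A s (fun _ => e) := by
  induction n with
  | zero =>
    intro s hs
    exact (EqL.refl 𝒰 A (fun _ => e)).congr (hs.mono fun i hi => (mem_singleton_iff.1 hi).symm)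
  | succ n ih =>
    intro s hs
    rcases Ultrafilter.eventually_or.1 hs with h1 | h1
    · exact ih s h1
    rcases Ultrafilter.eventually_or.1 h1 with h2 | h2
    · exact (hx n).congr (h2.mono fun i hi => (mem_singleton_iff.1 hi).symm)
    rcases Ultrafilter.eventually_or.1 h2 with h3 | h3
    · obtain ⟨q, hq⟩ := h3.choice
      have e1 := ih (fun i => (q i).1) (hq.mono fun i hi => hi.1.1)
      have e2 := ih (fun i => (q i).2) (hq.mono fun i hi => hi.1.2)
      have e3 := R_mul h hm hl hC e1 e2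
      simp only [h.mul_one] at e3
      exact e3.congr (hq.mono fun i hi => hi.2)
    rcases Ultrafilter.eventually_or.1 h3 with h4 | h4
    · obtain ⟨q, hq⟩ := h4.choice
      have e1 := R_inv h hm hl hC (ih q (hq.mono fun i hi => hi.1))
      have e2 : ldiv e e = e := by
        have := h.ldiv_mul e e
        rwa [h.mul_one] at this
      rw [e2] at e1
      exact e1.congr (hq.mono fun i hi => hi.2)
    · obtain ⟨q, hq⟩ := h4.choice
      have e1 := R_wd h hm hl hC n (fun i => (q i).1) (ih (fun i => (q i).2) (hq.mono fun i hi => hi.1.2))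
      have e2 := (e1.congr (hq.mono fun i hi => hi.2)).symm
      exact (e2.congr (hq.mono fun i hi => hi.1.1)).symm

/-- the elements equivalent to the unit form a normal subloop -/
theorem N_normal : NormalSub mul ldiv e {z | EqL 𝒰 A (fun _ => z) (fun _ => e)} where
  one_mem := EqL.refl 𝒰 A _
  mul_mem := by
    intro x hx y hy
    have := R_mul h hm hl hC hx hy
    simp only [h.mul_one] at this
    exact this
  inv_mem := by
    intro x hx
    have := R_inv h hm hl hC hx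
    have e2 : ldiv e e = e := by
      have := h.ldiv_mul e e
      rwa [h.mul_one] at this
    simp only [e2] at this
    exact this
  inner_mem := by
    intro φ hφ x hx
    obtain ⟨m, a, ha⟩ := Mlt_wd h hφ.1
    have h1 := R_wd h hm hl hC m (fun _ => a) hx
    simp only [← ha, hφ.2] at h1
    exact h1

/-- the inner mappings `z ↦ (A i e)⁻¹ (A i z)` contract -/
theorem contract {s : I → G} (h1 : EqL 𝒰 A s (fun _ => e)) :
    Tendsto (fun i => mul (ldiv (A i e) e) (A i (s i))) 𝒰 (𝓝 e) := by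
  obtain ⟨a, ha, hb⟩ := h1
  have h2 : Continuous (fun p : G × G => mul (ldiv p.1 e) p.2) :=
    hm.comp ((hl.comp (continuous_fst.prodMk continuous_const)).prodMk continuous_snd)
  have h3 := (h2.tendsto (a, a)).comp (hb.prodMk_nhds ha)
  simp only [h.inv_mul] at h3
  exact h3

end Pool.Agent.Helper90.Prox
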