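import Mathlib
import Pool.Agent.Helper90.Prox.Kei
import Pool.Agent.Helper90.Prox.Lim

set_option autoImplicit false
set_option linter.unusedSectionVars false

/-!
# Products of reflections and products of translations
-/

namespace Pool.Agent.Helper90.Prox

open Topology Filter Set
open Pool.Agent.Helper974.Moufang (IsMoufang kk FF)
open Pool.Agent.H100R2.MH

universe u

variable {G : Type u} [TopologicalSpace G] {mul ldiv rdiv : G → G → G} {e : G}
  (h : IsMoufang mul ldiv rdiv e)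
  (hm : Continuous (fun p : G × G => mul p.1 p.2)) (hl : Continuous (fun p : G × G => ldiv p.1 p.2))

include h in
theorem Mlt_inv {φ : G → G} (hφ : Mlt mul φ) :
    ∃ φ', Mlt mul φ' ∧ ∀ z, ldiv (φ z) e = φ' (ldiv z e) := by
  induction hφ with
  | id => exact ⟨_, Mlt.id, fun z => rfl⟩
  | left a hφ ih =>
    obtain ⟨φ', h1, h2⟩ := ih
    exact ⟨_, Mlt.right (ldiv a e) h1, fun z => by rw [h.inv_mul_rev, h2]⟩
  | right a hφ ih =>
    obtain ⟨φ', h1, h2⟩ := ih
    exact ⟨_, Mlt.left (ldiv a e) h1, fun z => by rw [h.inv_mul_rev, h2]⟩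

theorem color_aux1 : ∀ a z k : Fin 3, kk a (z + k) = (-a - k) - z := by decide
theorem color_aux2 : ∀ a z k : Fin 3, kk a (k - z) = z + (-a - k) := by decide

theorem act_cons (x : Fin 3 × G) (l : List (Fin 3 × G)) (z : Fin 3 × G) :
    (loopKei h hm hl).act (x :: l) z = lk mul ldiv e x ((loopKei h hm hl).act l z) := rfl

theorem act_color (l : List (Fin 3 × G)) : ∃ k : Fin 3,
    (Even l.length → ∀ z, ((loopKei h hm hl).act l z).1 = z.1 + k) ∧
    (¬ Even l.length → ∀ z, ((loopKei h hm hl).act l z).1 = k - z.1) := by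
  induction l with
  | nil => exact ⟨0, fun _ z => by simp [Kei3.act], fun hn => absurd (by simp) hn⟩
  | cons x l ih =>
    obtain ⟨k, h1, h2⟩ := ih
    refine ⟨-x.1 - k, fun hp z => ?_, fun hp z => ?_⟩
    · rw [act_cons]
      have hodd : ¬ Even l.length := by
        rw [List.length_cons, Nat.even_add_one] at hp; exact hp
      change kk x.1 ((loopKei h hm hl).act l z).1 = _
      rw [h2 hodd z, color_aux2]
    · rw [act_cons]
      have hev : Even l.length := by
        rw [List.length_cons, Nat.even_add_one, not_not] at hp; exact hp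
      change kk x.1 ((loopKei h hm hl).act l z).1 = _
      rw [h1 hev z, color_aux1]

include h in
theorem FF_Mlt (i c : Fin 3) (a : G) {φ : G → G} (hφ : Mlt mul φ) :
    ∃ φ', Mlt mul φ' ∧ ∀ w z, ldiv w e = φ z → FF mul ldiv e i c a w = φ' z := by
  by_cases h1 : c = i
  · refine ⟨_, Mlt.left a (Mlt.right a hφ), fun w z hw => ?_⟩
    rw [FF, if_pos h1, hw]
  · by_cases h2 : c = i + 1
    · refine ⟨_, Mlt.right (ldiv a e) hφ, fun w z hw => ?_⟩
      rw [FF, if_neg h1, if_pos h2, h.inv_mul_rev, hw]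
    · refine ⟨_, Mlt.left (ldiv a e) hφ, fun w z hw => ?_⟩
      rw [FF, if_neg h1, if_neg h2, h.inv_mul_rev, hw]

theorem act_Mlt (l : List (Fin 3 × G)) (j : Fin 3) : ∃ φ, Mlt mul φ ∧
    (Even l.length → ∀ z, ((loopKei h hm hl).act l (j, z)).2 = φ z) ∧
    (¬ Even l.length → ∀ z, ((loopKei h hm hl).act l (j, z)).2 = φ (ldiv z e)) := by
  induction l with
  | nil => exact ⟨_, Mlt.id, fun _ z => rfl, fun hn => absurd (by simp) hn⟩
  | cons x l ih =>
    obtain ⟨φ, hφ, h1, h2⟩ := ih
    obtain ⟨φ', hφ', h3⟩ := Mlt_inv h hφ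
    obtain ⟨k, hk1, hk2⟩ := act_color h hm hl l
    by_cases hp : Even l.length
    · -- `x :: l` is odd
      obtain ⟨ψ, hψ, h4⟩ := FF_Mlt h x.1 (j + k) x.2 hφ'
      have hn : ¬ Even (x :: l).length := by
        rw [List.length_cons, Nat.even_add_one, not_not]; exact hp
      refine ⟨ψ, hψ, fun hc => absurd hc hn, fun _ z => ?_⟩
      rw [act_cons]
      change FF mul ldiv e x.1 ((loopKei h hm hl).act l (j, z)).1 x.2
        ((loopKei h hm hl).act l (j, z)).2 = _
      rw [hk1 hp]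
      apply h4
      rw [h1 hp z, h3]
    · obtain ⟨ψ, hψ, h4⟩ := FF_Mlt h x.1 (k - j) x.2 hφ'
      have hn : Even (x :: l).length := by
        rw [List.length_cons, Nat.even_add_one]; exact hp
      refine ⟨ψ, hψ, fun _ z => ?_, fun hc => absurd hn hc⟩
      rw [act_cons]
      change FF mul ldiv e x.1 ((loopKei h hm hl).act l (j, z)).1 x.2
        ((loopKei h hm hl).act l (j, z)).2 = _
      rw [hk2 hp]
      apply h4
      rw [h2 hp z, h3, h.inv_inv]

theorem fin_aux (k w0 w1 : Fin 3) (h1 : k - 0 = w0) (h2 : k - w0 = w0) (h3 : k - 1 = w1)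
    (h4 : k - w1 = w1) : False := by
  revert k w0 w1; decide

/-- the ultrafilter attached to an element of the enveloping semigroup -/
theorem exists_ultra (K : Kei3 (Fin 3 × G)) {p : Fin 3 × G → Fin 3 × G} (hp : p ∈ EE K) :
    ∃ 𝒰 : Ultrafilter (List (Fin 3 × G)),
      Tendsto (fun l : List (Fin 3 × G) => (K.act l : Fin 3 × G → Fin 3 × G)) 𝒰 (𝓝 p) := by
  have h1 : (comap (fun l : List (Fin 3 × G) => (K.act l : Fin 3 × G → Fin 3 × G)) (𝓝 p)).NeBot := by
    rw [comap_neBot_iff_frequently]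
    exact mem_closure_iff_frequently.1 hp
  exact ⟨Ultrafilter.of _, tendsto_comap.mono_left (Ultrafilter.of_le _)⟩

variable {p : Fin 3 × G → Fin 3 × G} {𝒰 : Ultrafilter (List (Fin 3 × G))}

/-- the members of the ultrafilter preserve the colours -/
theorem colors (hU : Tendsto (fun l : List (Fin 3 × G) =>
      ((loopKei h hm hl).act l : Fin 3 × G → Fin 3 × G)) 𝒰 (𝓝 p)) (hpp : ∀ x, p (p x) = p x) :
    ∀ᶠ l in (𝒰 : Filter (List (Fin 3 × G))),
      Even l.length ∧ ∀ z, ((loopKei h hm hl).act l z).1 = z.1 := by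
  have hc : ∀ z, ∀ᶠ l in (𝒰 : Filter (List (Fin 3 × G))), ((loopKei h hm hl).act l z).1 = (p z).1 := by
    intro z
    have h1 : Tendsto (fun l : List (Fin 3 × G) => ((loopKei h hm hl).act l z).1) 𝒰 (𝓝 (p z).1) :=
      (continuous_fst.tendsto _).comp ((tendsto_pi_nhds.1 hU) z)
    have h2 := h1 (IsOpen.mem_nhds (isOpen_discrete {(p z).1}) rfl)
    exact h2
  filter_upwards [hc (0, e), hc (1, e), hc (p (0, e)), hc (p (1, e))] with l h1 h2 h3 h4
  rw [hpp] at h3 h4
  obtain ⟨k, k1, k2⟩ := act_color h hm hl l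
  by_cases hp : Even l.length
  · refine ⟨hp, fun z => ?_⟩
    rw [k1 hp] at h1 h3 ⊢
    have : k = 0 := by
      have h5 : (p (0, e)).1 + k = (p (0, e)).1 := h3
      simpa using h5
    rw [this, add_zero]
  · exfalso
    rw [k2 hp] at h1 h2 h3 h4
    exact fin_aux k _ _ h1 h3 h2 h4

/-- the homotopism property -/
theorem homotopism (hcol : ∀ᶠ l in (𝒰 : Filter (List (Fin 3 × G))),
      Even l.length ∧ ∀ z, ((loopKei h hm hl).act l z).1 = z.1) [CompactSpace G] [T2Space G] :
    ∀ᶠ l in (𝒰 : Filter (List (Fin 3 × G))), ∀ a b,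
      ((loopKei h hm hl).act l (2, ldiv (mul a b) e)).2 =
        ldiv (mul ((loopKei h hm hl).act l (0, a)).2 ((loopKei h hm hl).act l (1, b)).2) e := by
  filter_upwards [hcol] with l hl' a b
  have h1 := (t04 _ (loopKei h hm hl)).2.2.2.2.1 l (0, a) (1, b)
  have h2 : (loopKei h hm hl).r (0, a) (1, b) = (2, ldiv (mul a b) e) := by
    change (kk 0 1, FF mul ldiv e 0 1 a b) = _
    refine Prod.ext (by change kk 0 1 = 2; decide) ?_
    change FF mul ldiv e 0 1 a b = _
    rw [FF, if_neg (by decide), if_pos (by decide)]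
  rw [h2] at h1
  rw [h1]
  have e0 : (loopKei h hm hl).act l (0, a) = (0, ((loopKei h hm hl).act l (0, a)).2) :=
    Prod.ext (hl'.2 _) rfl
  have e1 : (loopKei h hm hl).act l (1, b) = (1, ((loopKei h hm hl).act l (1, b)).2) :=
    Prod.ext (hl'.2 _) rfl
  rw [e0, e1]
  change FF mul ldiv e 0 1 _ _ = _
  rw [FF, if_neg (by decide), if_pos (by decide)]

end Pool.Agent.Helper90.Prox
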