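import Mathlib
import Pool.Agent.Helper90.Prox.Act
import Pool.Agent.TH15.MoufangHaar.Hyper
import Pool.Agent.R664.Haar.Conv7

set_option autoImplicit false
set_option linter.unusedSectionVars false

/-!
# Closures of normal subloops; invariant integrals on quotients
-/

namespace Pool.Agent.Helper90.Prox

open Topology Filter Set
open Pool.Agent.Helper974.Moufang (IsMoufang kk FF)
open Pool.Agent.H100R2.MH
open Pool.Agent.TH15.MoufangHaar (ClosedNormal CN_cong CN_ldiv_mem CN_mem Cong CN_iff ldiv_eq quot_data)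
open Pool.Agent.R664.Haar (TopMoufang HasIntegral HaarKernel)
open TopologicalSpace (Compacts)

universe u

section
variable {G : Type u} [TopologicalSpace G] {mul ldiv rdiv : G → G → G} {e : G}

theorem rdiv_eq (h : IsMoufang mul ldiv rdiv e) (x y : G) : rdiv y x = mul y (ldiv x e) := by
  have := h.rip (rdiv y x) x
  rw [h.rdiv_mul] at this
  exact this.symm

theorem Mlt_ldiv (h : IsMoufang mul ldiv rdiv e) (a : G) {φ : G → G} (hφ : Mlt mul φ) :
    Mlt mul (fun z => ldiv a (φ z)) := by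
  have : (fun z => ldiv a (φ z)) = fun z => mul (ldiv a e) (φ z) := by
    funext z
    exact ldiv_eq h a (φ z)
  rw [this]
  exact Mlt.left _ hφ

theorem Mlt_rdiv (h : IsMoufang mul ldiv rdiv e) (a : G) {φ : G → G} (hφ : Mlt mul φ) :
    Mlt mul (fun z => rdiv (φ z) a) := by
  have : (fun z => rdiv (φ z) a) = fun z => mul (φ z) (ldiv a e) := by
    funext z
    exact rdiv_eq h a (φ z)
  rw [this]
  exact Mlt.right _ hφ

theorem Mlt_cont (hm : Continuous (fun p : G × G => mul p.1 p.2)) {φ : G → G} (hφ : Mlt mul φ) :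
    Continuous φ := by
  induction hφ with
  | id => exact continuous_id
  | left a hφ ih => exact hm.comp (continuous_const.prodMk ih)
  | right a hφ ih => exact hm.comp (ih.prodMk continuous_const)

variable [CompactSpace G] [T2Space G]

/-- the closure of a normal subloop is a closed normal subloop -/
theorem closure_normal (h : IsMoufang mul ldiv rdiv e)
    (hm : Continuous (fun p : G × G => mul p.1 p.2)) (hl : Continuous (fun p : G × G => ldiv p.1 p.2))
    (hr : Continuous (fun p : G × G => rdiv p.1 p.2)) {N : Set G}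
    (hN : NormalSub mul ldiv e N) : ClosedNormal mul ldiv e (closure N) := by
  have hin : ∀ φ, Mlt mul φ → φ e = e → ∀ a ∈ closure N, φ a ∈ closure N := fun φ h1 h2 a ha =>
    map_mem_closure (Mlt_cont hm h1) ha (fun x hx => hN.inner_mem φ ⟨h1, h2⟩ x hx)
  have l1 : ∀ x, ldiv x x = e := fun x => by
    have := h.ldiv_mul x e
    rwa [h.mul_one] at this
  have r1 : ∀ x, rdiv x x = e := fun x => by
    have := h.mul_rdiv x e
    rwa [h.one_mul] at this
  have key := (CN_iff (mul := mul) (ldiv := ldiv) (rdiv := rdiv) (e := e) h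
    (⟨closure N, isClosed_closure.isCompact⟩ : Compacts G)).2
  refine key ⟨subset_closure hN.one_mem, ?_, ?_, fun x y => ⟨?_, ?_, ?_, ?_, ?_, ?_⟩⟩
  · intro a ha b hb
    exact map_mem_closure₂ hm ha hb (fun x hx y hy => hN.mul_mem x hx y hy)
  · intro a ha _ _
    exact map_mem_closure (f := fun u => ldiv u e) (hl.comp (continuous_id.prodMk continuous_const))
      ha (fun x hx => hN.inv_mem x hx)
  · intro a ha _ _
    exact hin _ (Mlt_rdiv h x (Mlt.left x Mlt.id)) (by simp only [h.mul_one, r1]) a ha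
  · intro a ha _ _
    exact hin _ (Mlt_ldiv h x (Mlt.right x Mlt.id)) (by simp only [h.one_mul, l1]) a ha
  · intro a ha _ _
    exact hin _ (Mlt_ldiv h (mul x y) (Mlt.left x (Mlt.left y Mlt.id)))
      (by simp only [h.mul_one, l1]) a ha
  · intro a ha _ _
    exact hin _ (Mlt_ldiv h y (Mlt_ldiv h x (Mlt.left (mul x y) Mlt.id)))
      (by simp only [h.mul_one, h.ldiv_mul, l1]) a ha
  · intro a ha _ _
    exact hin _ (Mlt_rdiv h (mul x y) (Mlt.right y (Mlt.right x Mlt.id)))
      (by simp only [h.one_mul, r1]) a ha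
  · intro a ha _ _
    exact hin _ (Mlt_rdiv h x (Mlt_rdiv h y (Mlt.right (mul x y) Mlt.id)))
      (by simp only [h.one_mul, h.mul_rdiv, r1]) a ha

theorem hasIntegral_of_amen (ha : AmenOn mul (univ : Set G)) : HasIntegral mul := by
  obtain ⟨P, ⟨p1, p2, p3, p4⟩, hP⟩ := ha
  exact ⟨{ toFun := P
           map_add' := p1
           map_smul' := p2 }, p3, p4, fun a f g hg => (hP a trivial).1 f g hg,
    fun a f g hg => (hP a trivial).2 f g hg⟩

/-- invariant integral on the quotient -/
theorem haarKernel_of (h : IsMoufang mul ldiv rdiv e)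
    (hm : Continuous (fun p : G × G => mul p.1 p.2)) (hl : Continuous (fun p : G × G => ldiv p.1 p.2))
    (hr : Continuous (fun p : G × G => rdiv p.1 p.2)) {N : Set G} (hN : ClosedNormal mul ldiv e N)
    {y : XX (Fin 3 × G)} (hy : y ∈ St (Fin 3 × G))
    (hy3 : ∀ i, y ((loopKei h hm hl).ind i) = 1 / 3) {p : Fin 3 × G → Fin 3 × G}
    (hp1 : ∀ x, (p x).1 = x.1) (hp2 : ∀ x, ldiv x.2 (p x).2 ∈ N)
    (hinv : ∀ x, push ((loopKei h hm hl).rc (p x)) y = y) : HaarKernel mul N := by
  obtain ⟨Q, _, _, _, mul', ldiv', rdiv', π, q1, q2, q3, q4, q5, q6, q7, q8, q9, q10, q11⟩ :=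
    quot_data h hm hl hr hN
  have hQ : Pool.Agent.R664.Haar.IsMoufang mul' ldiv' rdiv' (π e) :=
    ⟨q1.one_mul, q1.mul_one, q1.mul_ldiv, q1.ldiv_mul, q1.rdiv_mul, q1.mul_rdiv,
      fun x y z => q1.moufang y z x⟩
  have hk : ∀ x, π x = π e ↔ x ∈ N := by
    intro x
    rw [eq_comm, q11, CN_mem h hN]
  refine ⟨Q, inferInstance, inferInstance, inferInstance, mul', ldiv', rdiv', π e, π,
    ⟨hQ, q2, q3, q4⟩, ?_, q5, q7, q8, hk⟩
  apply hasIntegral_of_amen
  apply t18 Q mul' ldiv' rdiv' (π e) q1 q2 q3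
  let PQ : C(Fin 3 × G, Fin 3 × Q) := ⟨fun z => (z.1, π z.2),
    continuous_fst.prodMk (q5.comp continuous_snd)⟩
  obtain ⟨y1, y2, y3, y4⟩ := hy
  have hFF : ∀ (i j : Fin 3) (a z : G),
      π (FF mul ldiv e i j a z) = FF mul' ldiv' (π e) i j (π a) (π z) := by
    intro i j a z
    unfold FF
    split_ifs <;> simp only [q8, q9]
  refine ⟨fun g => y (g.comp PQ), ⟨fun f g => y1 (f.comp PQ) (g.comp PQ),
    fun c f => y2 c (f.comp PQ), y3, fun f hf => y4 (f.comp PQ) (fun x => hf _)⟩, fun i => ?_, ?_⟩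
  · exact hy3 i
  · rintro ⟨i, b⟩
    obtain ⟨a, rfl⟩ := q7 b
    funext g
    change y ((g.comp ((loopKei q1 q2 q3).rc (i, π a))).comp PQ) = y (g.comp PQ)
    have h1 := congrFun (hinv (i, a)) (g.comp PQ)
    have h2 : π a = π (p (i, a)).2 := (q11 _ _).2 (hp2 (i, a))
    have h3 : p (i, a) = (i, (p (i, a)).2) := Prod.ext (hp1 (i, a)) rfl
    have h4 : (g.comp ((loopKei q1 q2 q3).rc (i, π a))).comp PQ =
        (g.comp PQ).comp ((loopKei h hm hl).rc (p (i, a))) := by
      ext ⟨j, z⟩
      rw [h3, h2]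
      change g (kk i j, FF mul' ldiv' (π e) i j (π (p (i, a)).2) (π z)) =
        g (kk i j, π (FF mul ldiv e i j (p (i, a)).2 z))
      rw [hFF]
    rw [h4]
    exact h1

end

end Pool.Agent.Helper90.Prox
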