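import Mathlib
import Pool.Agent.Helper90.Prox.Quot

set_option autoImplicit false
set_option linter.unusedSectionVars false

/-!
# Compact Moufang loops: contraction of a normal subloop modulo whose closure there is an invariant integral
-/

namespace Pool.Agent.Helper90.Prox

open Topology Filter Set
open Pool.Agent.Helper974.Moufang (IsMoufang kk FF)
open Pool.Agent.H100R2.MH
open Pool.Agent.TH15.MoufangHaar (ClosedNormal CN_cong CN_ldiv_mem CN_mem Cong ldiv_eq)
open Pool.Agent.R664.Haar (TopMoufang HasIntegral HaarKernel)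

universe u

section
variable {G : Type u} [TopologicalSpace G] {mul ldiv rdiv : G → G → G} {e : G}

theorem Mlt_cong (h : IsMoufang mul ldiv rdiv e) {E : G → G → Prop} (hE : Cong mul ldiv rdiv E)
    {φ : G → G} (hφ : Mlt mul φ) : ∀ x y, E (φ x) (φ y) → E x y := by
  induction hφ with
  | id => exact fun x y hxy => hxy
  | left a hφ ih =>
    intro x y hxy
    apply ih
    have := hE.ldiv_l a hxy
    simpa only [h.ldiv_mul] using this
  | right a hφ ih =>
    intro x y hxy
    apply ih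
    have := hE.rdiv_r a hxy
    simpa only [h.mul_rdiv] using this

theorem Mlt_surj (h : IsMoufang mul ldiv rdiv e) {φ : G → G} (hφ : Mlt mul φ) :
    ∀ y, ∃ x, φ x = y := by
  induction hφ with
  | id => exact fun y => ⟨y, rfl⟩
  | left a hφ ih =>
    intro y
    obtain ⟨x, hx⟩ := ih (ldiv a y)
    exact ⟨x, by simp only [hx, h.mul_ldiv]⟩
  | right a hφ ih =>
    intro y
    obtain ⟨x, hx⟩ := ih (rdiv y a)
    exact ⟨x, by simp only [hx, h.rdiv_mul]⟩

variable [CompactSpace G] [T2Space G]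

/-- Baire category -/
theorem baire_step (h : IsMoufang mul ldiv rdiv e)
    (hm : Continuous (fun p : G × G => mul p.1 p.2)) (hl : Continuous (fun p : G × G => ldiv p.1 p.2))
    (x : ℕ → G) {C : Set G} (hC : ClosedNormal mul ldiv e C) (hCW : C ⊆ ⋃ n, W mul ldiv e x n) :
    ∃ M, C ⊆ W mul ldiv e x M := by
  have : CompactSpace C := isCompact_iff_compactSpace.1 hC.closed.isCompact
  have : Nonempty C := ⟨⟨e, hC.one_mem⟩⟩
  let f : ℕ → Set C := fun n => {c | (c : G) ∈ W mul ldiv e x n}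
  have hfc : ∀ n, IsClosed (f n) := fun n =>
    ((W_compact hm hl x n).isClosed).preimage continuous_subtype_val
  have hfu : ⋃ n, f n = univ := by
    refine eq_univ_of_forall fun c => ?_
    obtain ⟨i, hi⟩ := mem_iUnion.1 (hCW c.2)
    exact mem_iUnion.2 ⟨i, hi⟩
  obtain ⟨n, c0, hc0⟩ := nonempty_interior_of_iUnion_of_closed hfc hfu
  let g : C → C → C := fun c z => ⟨mul c0 (ldiv c z),
    hC.mul_mem _ c0.2 _ (CN_ldiv_mem h hC c.2 z.2)⟩
  have hg : ∀ c, Continuous (g c) := fun c =>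
    Continuous.subtype_mk (hm.comp (continuous_const.prodMk
      (hl.comp (continuous_const.prodMk continuous_subtype_val)))) _
  have hgc : ∀ c, g c c = c0 := by
    intro c
    apply Subtype.ext
    change mul (c0 : G) (ldiv c c) = c0
    have h1 : ldiv (c : G) c = e := by
      have := h.ldiv_mul (c : G) e
      rwa [h.mul_one] at this
    rw [h1, h.mul_one]
  obtain ⟨t, -, ht⟩ := (isCompact_univ (X := C)).elim_nhds_subcover
    (fun c => g c ⁻¹' interior (f n)) (fun c _ => (hg c).continuousAt.preimage_mem_nhds (by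
      rw [hgc]; exact isOpen_interior.mem_nhds hc0))
  have hm2 : ∀ c : C, ∃ m, (c : G) ∈ W mul ldiv e x m := fun c => mem_iUnion.1 (hCW c.2)
  choose m hmm using hm2
  refine ⟨(max (t.sup m) (n + 2)) + 1, fun z hz => ?_⟩
  have h1 := ht (mem_univ (⟨z, hz⟩ : C))
  obtain ⟨c, hct, hc⟩ := mem_iUnion₂.1 h1
  have h2 : mul (c0 : G) (ldiv c z) ∈ W mul ldiv e x n := interior_subset (s := f n) hc
  have h3 : (c0 : G) ∈ W mul ldiv e x n := interior_subset (s := f n) hc0
  have h4 : ldiv (c0 : G) e ∈ W mul ldiv e x (n + 1) :=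
    Or.inr (Or.inr (Or.inr (Or.inl ⟨_, h3, rfl⟩)))
  have h5 : ldiv (c : G) z ∈ W mul ldiv e x (n + 2) := by
    refine Or.inr (Or.inr (Or.inl ⟨(ldiv (c0 : G) e, mul (c0 : G) (ldiv c z)),
      ⟨h4, W_mono (Nat.le_succ n) h2⟩, ?_⟩))
    exact h.lip _ _
  refine Or.inr (Or.inr (Or.inl ⟨((c : G), ldiv (c : G) z), ⟨?_, ?_⟩, ?_⟩))
  · exact W_mono ((Finset.le_sup (f := m) hct).trans (le_max_left _ _)) (hmm c)
  · exact W_mono (le_max_right _ _) h5
  · exact h.mul_ldiv _ _

/-- the main theorem -/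
theorem main0 (h : IsMoufang mul ldiv rdiv e)
    (hm : Continuous (fun p : G × G => mul p.1 p.2)) (hl : Continuous (fun p : G × G => ldiv p.1 p.2))
    (hr : Continuous (fun p : G × G => rdiv p.1 p.2)) :
    ∃ (N : Set G) (𝒱 : Ultrafilter (G → G)), NormalSub mul ldiv e N ∧
      ClosedNormal mul ldiv e (closure N) ∧ HaarKernel mul (closure N) ∧
      (N = {e} → HasIntegral mul) ∧
      (∀ᶠ φ in (𝒱 : Filter (G → G)), Inner mul e φ) ∧
      (∀ z ∈ N, Tendsto (fun φ : G → G => φ z) 𝒱 (𝓝 e)) ∧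
      ∀ X : ℕ → G, (∀ n, X n ∈ N) →
        (∀ n, ∀ U ∈ 𝓝 e, ∀ᶠ φ in (𝒱 : Filter (G → G)), ∀ z ∈ W mul ldiv e X n, φ z ∈ U) ∧
        (∀ C, ClosedNormal mul ldiv e C → C ⊆ ⋃ n, W mul ldiv e X n → C = {e}) := by
  obtain ⟨y, hy, hy3, p, hpE, hpp, hinv⟩ := exists_idem (loopKei h hm hl)
  obtain ⟨𝒰, hU⟩ := exists_ultra (loopKei h hm hl) hpE
  have hcol := colors h hm hl hU hpp
  have hC := homotopism h hm hl hcol
  set A : List (Fin 3 × G) → G → G := fun l z => ((loopKei h hm hl).act l (0, z)).2 with hA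
  set B : List (Fin 3 × G) → G → G := fun l z => ((loopKei h hm hl).act l (1, z)).2 with hB
  set C : List (Fin 3 × G) → G → G := fun l z => ((loopKei h hm hl).act l (2, ldiv z e)).2 with hCd
  have hC' : ∀ᶠ i in (𝒰 : Filter (List (Fin 3 × G))), ∀ a b,
      C i (mul a b) = ldiv (mul (A i a) (B i b)) e := hC
  have hlim : ∀ z, Tendsto (fun l : List (Fin 3 × G) => ((loopKei h hm hl).act l z).2) 𝒰
      (𝓝 (p z).2) := fun z => (continuous_snd.tendsto _).comp ((tendsto_pi_nhds.1 hU) z)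
  have hc1 : ∀ x0, (p x0).1 = x0.1 := by
    intro x0
    have h1 : Tendsto (fun l : List (Fin 3 × G) => ((loopKei h hm hl).act l x0).1) 𝒰 (𝓝 (p x0).1) :=
      (continuous_fst.tendsto _).comp ((tendsto_pi_nhds.1 hU) x0)
    have h2 : Tendsto (fun l : List (Fin 3 × G) => ((loopKei h hm hl).act l x0).1) 𝒰 (𝓝 x0.1) :=
      tendsto_const_nhds.congr' (hcol.mono fun l hl' => (hl'.2 x0).symm)
    exact tendsto_nhds_unique h1 h2
  -- `x` and `p x` are equivalent
  have hR : ∀ x0 : Fin 3 × G, EqL 𝒰 A (fun _ => x0.2) (fun _ => (p x0).2) := by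
    rintro ⟨i, a⟩
    obtain ⟨b, hb⟩ : ∃ b, p (i, a) = (i, b) := ⟨(p (i, a)).2, Prod.ext (hc1 _) rfl⟩
    have l1 := hlim (i, a)
    have l2 := hlim (i, b)
    have hb2 : p (i, b) = (i, b) := by rw [← hb, hpp]
    rw [hb] at l1 ⊢
    rw [hb2] at l2
    have hi : ∀ i : Fin 3, i = 0 ∨ i = 1 ∨ i = 2 := by decide
    rcases hi i with rfl | rfl | rfl
    · exact ⟨b, l1, l2⟩
    · have h1 : EqL 𝒰 B (fun _ => a) (fun _ => b) := ⟨b, l1, l2⟩
      exact CA h hm hl hC' (BC h hm hl hC' h1)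
    · have h1 : EqL 𝒰 A (fun _ => ldiv a e) (fun _ => ldiv b e) := by
        refine CA h hm hl hC' ⟨b, ?_, ?_⟩
        · simpa only [hCd, h.inv_inv] using l1
        · simpa only [hCd, h.inv_inv] using l2
      have h2 := R_inv h hm hl hC' h1
      simpa only [h.inv_inv] using h2
  set N : Set G := {z | EqL 𝒰 A (fun _ => z) (fun _ => e)} with hN
  have hNn : NormalSub mul ldiv e N := N_normal h hm hl hC'
  have hpN : ∀ x0 : Fin 3 × G, ldiv x0.2 (p x0).2 ∈ N := by
    intro x0
    have h1 := R_mul h hm hl hC' (EqL.refl 𝒰 A (fun _ => ldiv x0.2 e)) (hR x0)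
    simp only [h.inv_mul] at h1
    have h2 := h1.symm
    rw [ldiv_eq h]
    exact h2
  have hcl := closure_normal h hm hl hr hNn
  let φ : List (Fin 3 × G) → G → G := fun l z => mul (ldiv (A l e) e) (A l z)
  have hφ : ∀ᶠ l in (𝒰 : Filter (List (Fin 3 × G))), Inner mul e (φ l) := by
    filter_upwards [hcol] with l hl'
    obtain ⟨ψ, hψ, h1, -⟩ := act_Mlt h hm hl l 0
    have h2 : φ l = fun z => mul (ldiv (A l e) e) (ψ z) := by
      funext z
      change mul (ldiv (A l e) e) (A l z) = _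
      rw [← h1 hl'.1 z]
    refine ⟨?_, h.inv_mul _⟩
    rw [h2]
    exact Mlt.left _ hψ
  refine ⟨N, 𝒰.map φ, hNn, hcl, ?_, ?_, hφ, ?_, ?_⟩
  · exact haarKernel_of h hm hl hr hcl hy hy3 hc1 (fun x => subset_closure (hpN x)) hinv
  · intro hNe
    apply hasIntegral_of_amen
    refine t18 G mul ldiv rdiv e h hm hl ⟨y, hy, hy3, fun x => ?_⟩
    have h1 : p x = x := by
      have h2 : ldiv x.2 (p x).2 = e := by
        have := hpN x
        rw [hNe] at this
        exact this
      refine Prod.ext (hc1 x) ?_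
      have h3 := h.mul_ldiv x.2 (p x).2
      rw [h2, h.mul_one] at h3
      exact h3.symm
    have h2 := hinv x
    rwa [h1] at h2
  · intro z hz
    exact contract h hm hl hC' hz
  · intro X hX
    refine ⟨?_, ?_⟩
    · intro n U hU'
      change ∀ᶠ l in (𝒰 : Filter (List (Fin 3 × G))), ∀ z ∈ W mul ldiv e X n, φ l z ∈ U
      by_contra hcon
      rw [← Ultrafilter.eventually_not] at hcon
      have h1 : ∀ᶠ l in (𝒰 : Filter (List (Fin 3 × G))), ∃ z, z ∈ W mul ldiv e X n ∧ φ l z ∉ U := by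
        filter_upwards [hcon] with l hl'
        push Not at hl'
        exact hl'
      obtain ⟨z, hz⟩ := h1.choice
      have h2 := W_sel h hm hl hC' hX n z (hz.mono fun l hl' => hl'.1)
      have h3 := contract h hm hl hC' h2
      obtain ⟨l, h4, h5⟩ := ((h3.eventually_mem hU').and hz).exists
      exact h5.2 h4
    · intro D hD hDW
      obtain ⟨M, hM⟩ := baire_step h hm hl _ hD hDW
      refine Subset.antisymm ?_ (singleton_subset_iff.2 hD.one_mem)
      intro c hc
      have h1 : ∀ᶠ l in (𝒰 : Filter (List (Fin 3 × G))), ∃ z, z ∈ D ∧ φ l z = c := by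
        filter_upwards [hφ] with l hl'
        obtain ⟨z, hz⟩ := Mlt_surj h hl'.1 c
        refine ⟨z, ?_, hz⟩
        have h2 := Mlt_cong h (CN_cong h hD) hl'.1 e z (by
          rw [hl'.2, hz, CN_mem h hD]; exact hc)
        exact (CN_mem h hD z).1 h2
      obtain ⟨z, hz⟩ := h1.choice
      have h2 := W_sel h hm hl hC' hX M z (hz.mono fun l hl' => hM hl'.1)
      have h3 := contract h hm hl hC' h2
      have h4 : Tendsto (fun l => φ l (z l)) 𝒰 (𝓝 c) :=
        tendsto_const_nhds.congr' (hz.mono fun l hl' => hl'.2.symm)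
      exact tendsto_nhds_unique h4 h3

end

end Pool.Agent.Helper90.Prox
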