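import Mathlib
import Pool.Agent.Helper90.Prox.Main

set_option autoImplicit false
set_option linter.unusedSectionVars false

/-!
# Structure theorem and criteria
-/

namespace Pool.Agent.Helper90.Prox

open Topology Filter Set
open Pool.Agent.Helper974.Moufang (IsMoufang)
open Pool.Agent.TH15.MoufangHaar (ClosedNormal)
open Pool.Agent.R664.Haar (TopMoufang HasIntegral HaarKernel)

universe u

variable {L : Type u} [TopologicalSpace L] [CompactSpace L] [T2Space L]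
  {mul ldiv rdiv : L → L → L} {e : L}

theorem final1 (TL : TopMoufang mul ldiv rdiv e) :
    ∃ (N : Set L) (𝒱 : Ultrafilter (L → L)), NormalSub mul ldiv e N ∧
      ClosedNormal mul ldiv e (closure N) ∧ HaarKernel mul (closure N) ∧
      (N = {e} → HasIntegral mul) ∧
      (∀ᶠ φ in (𝒱 : Filter (L → L)), Inner mul e φ) ∧
      (∀ z ∈ N, Tendsto (fun φ : L → L => φ z) 𝒱 (𝓝 e)) ∧
      ∀ X : ℕ → L, (∀ n, X n ∈ N) →
        (∃ W : ℕ → Set L, (∀ n, IsCompact (W n)) ∧ ⋃ n, W n = NC mul ldiv e X ∧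
          ∀ n, ∀ U ∈ 𝓝 e, ∀ᶠ φ in (𝒱 : Filter (L → L)), ∀ z ∈ W n, φ z ∈ U) ∧
        ∀ C, ClosedNormal mul ldiv e C → C ⊆ NC mul ldiv e X → C = {e} := by
  obtain ⟨N, 𝒱, h1, h2, h3, h4, h5, h6, h7⟩ := main0 TL.old TL.cm TL.cl TL.cr
  refine ⟨N, 𝒱, h1, h2, h3, h4, h5, h6, fun X hX => ?_⟩
  obtain ⟨h8, h9⟩ := h7 X hX
  rw [iUnion_W TL.old] at h9
  exact ⟨⟨_, W_compact TL.cm TL.cl X, iUnion_W TL.old X, h8⟩, h9⟩

theorem Mlt_inj (h : IsMoufang mul ldiv rdiv e) {φ : L → L} (hφ : Mlt mul φ) :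
    ∀ x y, φ x = φ y → x = y := by
  induction hφ with
  | id => exact fun x y hxy => hxy
  | left a hφ ih => exact fun x y hxy => ih x y (h.lcan hxy)
  | right a hφ ih => exact fun x y hxy => ih x y (h.rcan hxy)

/-- first criterion: no element different from `e` and near `e` can be moved towards `e` by inner mappings -/
theorem crit1 (TL : TopMoufang mul ldiv rdiv e)
    (hL : ∃ U ∈ 𝓝 e, ∀ x ∈ U, x ≠ e → e ∉ closure {z | ∃ φ, Inner mul e φ ∧ φ x = z}) :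
    HasIntegral mul := by
  obtain ⟨U, hU, hL⟩ := hL
  obtain ⟨N, 𝒱, h1, h2, h3, h4, h5, h6, h7⟩ := final1 TL
  apply h4
  ext x
  constructor
  · intro hx
    by_contra hne
    obtain ⟨ψ, hψ, hψU⟩ := (h5.and ((h6 x hx) hU)).exists
    have hne2 : ψ x ≠ e := fun hc => hne (Mlt_inj TL.old hψ.1 x e (by rw [hc, hψ.2]))
    refine hL (ψ x) hψU hne2 (mem_closure_of_tendsto (h6 (ψ x) (h1.inner_mem ψ hψ x hx)) ?_)
    filter_upwards [h5] with φ hφ
    exact ⟨φ, hφ, rfl⟩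
  · intro hx
    rw [mem_singleton_iff.1 hx]
    exact h1.one_mem

/-- second criterion: the normal subloop generated by an element near `e` contains a closed one -/
theorem crit2 (TL : TopMoufang mul ldiv rdiv e)
    (hL : ∃ U ∈ 𝓝 e, ∀ x ∈ U, x ≠ e →
      ∃ C, ClosedNormal mul ldiv e C ∧ C ≠ {e} ∧ C ⊆ NC mul ldiv e (fun _ => x)) :
    HasIntegral mul := by
  obtain ⟨U, hU, hL⟩ := hL
  obtain ⟨N, 𝒱, h1, h2, h3, h4, h5, h6, h7⟩ := final1 TL
  apply h4
  ext x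
  constructor
  · intro hx
    by_contra hne
    obtain ⟨ψ, hψ, hψU⟩ := (h5.and ((h6 x hx) hU)).exists
    have hne2 : ψ x ≠ e := fun hc => hne (Mlt_inj TL.old hψ.1 x e (by rw [hc, hψ.2]))
    obtain ⟨C, hC1, hC2, hC3⟩ := hL (ψ x) hψU hne2
    exact hC2 ((h7 (fun _ => ψ x) (fun _ => h1.inner_mem ψ hψ x hx)).2 C hC1 hC3)
  · intro hx
    rw [mem_singleton_iff.1 hx]
    exact h1.one_mem

end Pool.Agent.Helper90.Prox
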