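import Mathlib
import Pool.Agent.Helper90.Prox.Final
import Pool.Agent.R664.Haar.Conv11

set_option autoImplicit false
set_option linter.unusedSectionVars false

/-!
# Metrizable loops: sequences of inner mappings; the reduction
-/

namespace Pool.Agent.Helper90.Prox

open Topology Filter Set
open Pool.Agent.Helper974.Moufang (IsMoufang)
open Pool.Agent.TH15.MoufangHaar (ClosedNormal)
open Pool.Agent.R664.Haar (TopMoufang HasIntegral HaarKernel HaarSub reduction_iff)
open TopologicalSpace (Compacts)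

universe u

/-- `W` exhausts a normal subloop `N` by compact sets on each of which the sequence `φ` of inner mappings
converges uniformly to the unit; and `N` contains no closed normal subloop except `{e}` -/
structure Contracted {G : Type*} [TopologicalSpace G] (mul ldiv : G → G → G) (e : G)
    (W : ℕ → Set G) (φ : ℕ → G → G) : Prop where
  compact : ∀ n, IsCompact (W n)
  normal : NormalSub mul ldiv e (⋃ n, W n)
  inner : ∀ k, Inner mul e (φ k)
  unif : ∀ n, ∀ U ∈ 𝓝 e, ∀ᶠ k in atTop, ∀ z ∈ W n, φ k z ∈ U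
  closed_triv : ∀ C, ClosedNormal mul ldiv e C → C ⊆ ⋃ n, W n → C = {e}

theorem metr {L : Type u} [TopologicalSpace L] [CompactSpace L] [TopologicalSpace.MetrizableSpace L]
    {mul ldiv rdiv : L → L → L} {e : L} (TL : TopMoufang mul ldiv rdiv e) :
    ∃ (W : ℕ → Set L) (φ : ℕ → L → L), Contracted mul ldiv e W φ ∧
      ClosedNormal mul ldiv e (closure (⋃ n, W n)) ∧ HaarKernel mul (closure (⋃ n, W n)) ∧
      (⋃ n, W n = {e} → HasIntegral mul) := by
  let _ : MetricSpace L := TopologicalSpace.metrizableSpaceMetric L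
  obtain ⟨N, 𝒱, h1, h2, h3, h4, h5, h6, h7⟩ := final1 TL
  have : Nonempty N := ⟨⟨e, h1.one_mem⟩⟩
  let X : ℕ → L := fun n => (TopologicalSpace.denseSeq N n : L)
  have hX : ∀ n, X n ∈ N := fun n => (TopologicalSpace.denseSeq N n).2
  obtain ⟨⟨W, hW1, hW2, hW3⟩, h9⟩ := h7 X hX
  have hNC : NC mul ldiv e X ⊆ N := fun z hz => hz N h1 hX
  have hNCn : NormalSub mul ldiv e (NC mul ldiv e X) := by
    rw [← iUnion_W TL.old]
    exact W_normal TL.old X
  have hXin : ∀ n, X n ∈ NC mul ldiv e X := fun n M _ hM => hM n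
  have hcl : closure (NC mul ldiv e X) = closure N := by
    apply Subset.antisymm (closure_mono hNC)
    apply closure_minimal _ isClosed_closure
    intro z hz
    have hd := TopologicalSpace.denseRange_denseSeq N
    have hz2 : (⟨z, hz⟩ : N) ∈ closure (Set.range (TopologicalSpace.denseSeq N)) := hd _
    have h8 := map_mem_closure continuous_subtype_val hz2
      (t := NC mul ldiv e X) (by
        rintro _ ⟨n, rfl⟩
        exact hXin n)
    exact h8
  obtain ⟨U, hU⟩ := (𝓝 e).exists_antitone_basis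
  have hex : ∀ k, ∃ φ, Inner mul e φ ∧ ∀ n ≤ k, ∀ z ∈ W n, φ z ∈ U k := by
    intro k
    have h8 : ∀ᶠ φ in (𝒱 : Filter (L → L)), ∀ n ∈ Finset.range (k + 1), ∀ z ∈ W n, φ z ∈ U k := by
      rw [Filter.eventually_all_finset]
      intro n _
      exact hW3 n (U k) (hU.mem k)
    obtain ⟨φ, hφ1, hφ2⟩ := (h5.and h8).exists
    exact ⟨φ, hφ1, fun n hn => hφ2 n (Finset.mem_range.2 (by omega))⟩
  choose φ hφ1 hφ2 using hex
  refine ⟨W, φ, ⟨hW1, ?_, hφ1, ?_, ?_⟩, ?_, ?_, ?_⟩
  · rw [hW2]; exact hNCn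
  · intro n V hV
    obtain ⟨k0, hk0⟩ := hU.mem_iff.1 hV
    filter_upwards [eventually_ge_atTop (max n k0)] with k hk z hz
    exact hk0 (hU.antitone ((le_max_right _ _).trans hk) (hφ2 k n ((le_max_left _ _).trans hk) z hz))
  · intro C hC hCW
    rw [hW2] at hCW
    exact h9 C hC hCW
  · rw [hW2, hcl]; exact h2
  · rw [hW2, hcl]; exact h3
  · rw [hW2]
    intro hne
    apply h4
    apply Subset.antisymm
    · have h10 : N ⊆ closure (NC mul ldiv e X) := by rw [hcl]; exact subset_closure
      rw [hne, isClosed_singleton.closure_eq] at h10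
      exact h10
    · exact singleton_subset_iff.2 h1.one_mem

/-- the reduction -/
theorem reduction2 :
    (∀ (L : Type u) [TopologicalSpace L] [CompactSpace L] [T2Space L] (mul ldiv rdiv : L → L → L)
      (e : L), TopMoufang mul ldiv rdiv e → HasIntegral mul) ↔
    (∀ (K : Type u) [TopologicalSpace K] [CompactSpace K] [TopologicalSpace.MetrizableSpace K]
      [ConnectedSpace K] [Nontrivial K] (mul ldiv rdiv : K → K → K) (e : K),
      TopMoufang mul ldiv rdiv e →
      IsConnected {N : Compacts K | ClosedNormal mul ldiv e (N : Set K)} →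
      (∃ (W : ℕ → Set K) (φ : ℕ → K → K), Contracted mul ldiv e W φ ∧ Dense (⋃ n, W n)) →
      ∃ N : Set K, ClosedNormal mul ldiv e N ∧
        ((N ≠ {e} ∧ HaarSub mul N) ∨ (N ≠ Set.univ ∧ HaarKernel mul N))) := by
  constructor
  · intro hall K _ _ _ _ _ mul ldiv rdiv e TK hcon _
    exact reduction_iff.1 hall K mul ldiv rdiv e TK hcon
  · intro hred
    apply reduction_iff.2
    intro K _ _ _ _ _ mul ldiv rdiv e TK hcon
    obtain ⟨W, φ, h1, h2, h3, -⟩ := metr TK
    by_cases hd : closure (⋃ n, W n) = Set.univ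
    · exact hred K mul ldiv rdiv e TK hcon ⟨W, φ, h1, dense_iff_closure_eq.2 hd⟩
    · exact ⟨_, h2, Or.inr ⟨hd, h3⟩⟩

end Pool.Agent.Helper90.Prox
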